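import Pool.Agent.H98.SD.TargetsK
import Pool.Agent.H50.SD.MEC

/-!
# MP_e37c09_lc, SD, module MEK: the measures are normal measures, for all regular cardinals `K`
-/

open Ordinal Cardinal Order Set
open scoped ZFSet

universe u

namespace Pool.Agent.H50.SD.MEK

open _root_.HD _root_.HD.SD Pool.Agent.H45.NF Pool.Agent.H94.SD
open _root_.HD.NF (w0)

/-- the measure is a member of `NC A` -/
theorem mick {A : ZFSet.{u} → Prop} (hA : Gp A) (κ : Ordinal.{u}) (μ : Ordinal.{u})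
    (S : Set Ordinal.{u}) (hS : ∃ x, A x ∧ NF.ODp x (os κ S)) :
    NC A (UC A μ κ S) := by
  obtain ⟨x, hx, hxS⟩ := hS
  obtain ⟨Q0, hQ0, h0⟩ := hA
  obtain ⟨R, hR, hRs⟩ := (pf_pa x _).1 hxS
  refine nc_def.2 ⟨⟨x, hx, ?_⟩, fun y hy => (ZFSet.mem_sep.1 hy).2.1⟩
  refine ODp.of_dz (Q := fun v => ∀ z, z ∈ v 0 ↔
    z ∈ ZFSet.powerset κ.toZFSet ∧ NCx Q0 z (v 1) ∧ ∃ X, ZFSet.pair (v 1) X ∈ R ∧
      ¬ Pos μ κ {a | a.toZFSet ∈ X ∧ a.toZFSet ∉ z})
    (DZ.all (DZ.iff (DZ.mem 0 1) (DZ.and ?_ (DZ.and (dz_ncx hQ0 0 2) (DZ.ex (DZ.and ?_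
      (dz_pos2 μ κ).not)))))) fun y => ?_
  · exact DZ.od (R := fun b v => v 0 ∈ b)
      (od_powerset (OD.ordinal κ)) (DZ.mem 1 0)
  · exact DZ.od (R := fun r v => ZFSet.pair (v 3) (v 0) ∈ r) hR (loc_pmem 4 1 0).dz
  · have hpos : ∀ z : ZFSet.{u}, Pos μ κ
        {a | a.toZFSet ∈ os κ S ∧ a.toZFSet ∉ z} ↔
        Pos μ κ {a | a ∈ S ∧ a.toZFSet ∉ z} := by
      intro z
      constructor
      · intro h
        exact h.mono fun b _ hb _ => ⟨(ord_mem_os.1 hb.1).2, hb.2⟩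
      · intro h
        exact h.mono fun b hb hbs _ => ⟨ord_mem_os.2 ⟨hb, hbs.1⟩, hbs.2⟩
    have key : ∀ z, (z ∈ ZFSet.powerset κ.toZFSet ∧ NCx Q0 z x ∧ ∃ X,
        ZFSet.pair x X ∈ R ∧ ¬ Pos μ κ {a | a.toZFSet ∈ X ∧ a.toZFSet ∉ z}) ↔
        z ∈ UC A μ κ S := by
      intro z
      unfold UC
      rw [ZFSet.mem_sep, ← nc_iff (h0 x hx) z]
      constructor
      · rintro ⟨h1, h2, X, h3, h4⟩
        rw [(hRs X).1 h3, hpos] at h4
        exact ⟨h1, h2, h4⟩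
      · rintro ⟨h1, h2, h4⟩
        exact ⟨h1, h2, _, (hRs _).2 rfl, by rwa [hpos]⟩
    show (∀ z, z ∈ y ↔ z ∈ ZFSet.powerset κ.toZFSet ∧ NCx Q0 z x ∧ ∃ X,
        ZFSet.pair x X ∈ R ∧ ¬ Pos μ κ {a | a.toZFSet ∈ X ∧ a.toZFSet ∉ z}) ↔
        y = UC A μ κ S
    constructor
    · intro h
      ext z
      rw [h z, key z]
    · rintro rfl z
      exact (key z).symm

end Pool.Agent.H50.SD.MEK

namespace Pool.Agent.H50.SD

open _root_.HD _root_.HD.SD MEC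
open _root_.HD.NF (w0)
open _root_.HD.HV (NMeas)

/-- MEK. The measures. -/
theorem pf_MEK : T_MEK.{u} := by
  intro A hA K hK hK0 μ T hdf hpos hset
  have hVA : T_VA.{u} := _root_.HD.All.va
  have hVB : T_VB.{u} := _root_.HD.All.vb
  have hcof : ℵ₀ < K.ord.cof := by
    rw [hK.cof_ord]
    exact hK0
  have hlim : IsSuccLimit K.ord := by
    rw [← Ordinal.one_lt_cof_iff]
    exact (Cardinal.one_lt_aleph0).trans hcof
  have hnv : ∀ {x : ZFSet.{u}}, NC A x → PC A x := fun hx => ZFSet.Hereditarily.self hx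
  -- a subset of `κ` defined from `f`
  have hsub : ∀ (f : ZFSet.{u}) (P : ZFSet.{u} → ZFSet.{u} → Prop), PC A f →
      (DZ fun v => P (v 0) (v 1)) → PC A ((K.ord.toZFSet).sep (fun b => P b f)) := by
    intro f P hf hP
    refine pc_of hf (Q := fun v => ∀ b, b ∈ v 0 ↔ b ∈ K.ord.toZFSet ∧ P b (v 1))
      ?_ fun y => ?_
    · refine DZ.all (R := fun b v => b ∈ v 0 ↔ b ∈ K.ord.toZFSet ∧ P b (v 1)) ?_
      refine (DZ.mem 0 1).iff (DZ.and ?_ ?_)
      · exact DZ.od (R := fun a v => v 0 ∈ a) (OD.ordinal K.ord) (DZ.mem 1 0)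
      · exact hP.ren fun n => Nat.casesOn n 0 fun _ => 2
    · constructor
      · intro hy
        ext b
        rw [ZFSet.mem_sep]
        exact hy b
      · rintro rfl b
        show b ∈ ZFSet.sep (fun b => P b f) K.ord.toZFSet ↔ b ∈ K.ord.toZFSet ∧ P b f
        rw [ZFSet.mem_sep]
  have hsubN : ∀ (f : ZFSet.{u}) (P : ZFSet.{u} → ZFSet.{u} → Prop), PC A f →
      (DZ fun v => P (v 0) (v 1)) → NC A ((K.ord.toZFSet).sep (fun b => P b f)) := by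
    intro f P hf hP
    exact nc_sub (κ := K.ord) (hsub f P hf hP) fun z hz => (ZFSet.mem_sep.1 hz).1
  refine ⟨?_, ?_, ?_, ?_, ?_, ?_, ?_⟩
  · -- inN
    exact MEK.mick hA K.ord μ T hdf
  · -- sub
    intro x hx
    exact (mem_UC.1 hx).1
  · -- ultra
    intro x hx hxα
    constructor
    · intro h3 h4
      rw [mem_UC] at h3 h4
      refine null_union hVA hcof h3.2.2 h4.2.2 (hpos.mono fun b hb hbE _ => ?_)
      by_cases hbx : b ∈ S x
      · refine Or.inr ⟨hbE, fun h5 => ?_⟩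
        exact (ZFSet.mem_sdiff.1 (mem_S.1 h5)).2 (mem_S.1 hbx)
      · exact Or.inl ⟨hbE, hbx⟩
    · intro h3
      refine mem_UC.2 ⟨hxα, hx, ?_⟩
      have h4 : NC A (K.ord.toZFSet \ x) := by
        have h5 := hsubN x (fun b f => b ∉ f) (hnv hx) (DZ.mem 0 1).not
        have h6 : (K.ord.toZFSet).sep (fun b => b ∉ x) = K.ord.toZFSet \ x := by
          ext b
          rw [ZFSet.mem_sep, ZFSet.mem_sdiff]
        rwa [h6] at h5
      have h5 : Pos μ K.ord (T \ S (K.ord.toZFSet \ x)) := by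
        by_contra h6
        exact h3 (mem_UC.2 ⟨fun z hz => (ZFSet.mem_sdiff.1 hz).1, h4, h6⟩)
      obtain ⟨y, hy, hyx⟩ := hnv hx
      rcases hset y x hy hyx with h6 | h6
      · exfalso
        refine h6 (h5.mono fun b hb hbE _ => ⟨hbE.1, ?_⟩)
        by_contra hbx
        exact hbE.2 (ZFSet.mem_sdiff.2 ⟨toZFSet_mem_toZFSet_iff.2 hb, hbx⟩)
      · exact h6
  · -- up
    intro x hx y hy hxy hyα
    rw [mem_UC] at hx ⊢
    refine ⟨hyα, hy, fun h3 => hx.2.2 (h3.mono fun b _ hb _ => ⟨hb.1, fun h4 => ?_⟩)⟩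
    exact hb.2 (mem_S.2 (hxy (mem_S.1 h4)))
  · -- nonpr
    intro a ha h3
    rw [mem_UC] at h3
    refine null_union hVA hcof h3.2.2 (hVB μ K.ord (succ a) hlim (hlim.succ_lt ha))
      (hpos.mono fun b hb hbE _ => ?_)
    by_cases hba : b = a
    · exact Or.inr (by rw [hba]; exact lt_succ a)
    · refine Or.inl ⟨hbE, fun h4 => hba ?_⟩
      exact toZFSet_injective (ZFSet.mem_singleton.1 h4)
  · -- compl
    intro τ hτ f hf hfn
    refine mem_UC.2 ⟨fun z hz => (ZFSet.mem_sep.1 hz).1, ?_, fun h4 => ?_⟩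
    · refine hsubN f (fun b f => ∀ a x, ZFSet.pair a x ∈ f → b ∈ x) (hnv hf) ?_
      refine DZ.all (R := fun a v => ∀ x, ZFSet.pair a x ∈ v 1 → v 0 ∈ x) ?_
      refine DZ.all (R := fun x v => ZFSet.pair (v 0) x ∈ v 2 → v 1 ∈ x) ?_
      exact (loc_pmem 1 0 3).dz.imp (DZ.mem 2 0)
    · have hτc : τ.card < K.ord.cof := by
        rw [hK.cof_ord]
        exact Cardinal.lt_ord.1 hτ
      refine hVA μ K.ord hcof τ hτc
        (fun k => {b | b ∈ T ∧ ∃ x, ZFSet.pair k.toZFSet x ∈ f ∧ b.toZFSet ∉ x})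
        (fun k hk h5 => ?_) (h4.mono fun b hb hbE _ => ?_)
      · obtain ⟨x, hx, hx'⟩ := hfn.2 k.toZFSet (toZFSet_mem_toZFSet_iff.2 hk)
        have hxU : x ∈ UC A μ K.ord T := (ZFSet.pair_mem_prod.1 (hfn.1 hx)).2
        rw [mem_UC] at hxU
        refine hxU.2.2 (h5.mono fun b hb hbE _ => ⟨hbE.1, fun h6 => ?_⟩)
        obtain ⟨x', hx1, hx2⟩ := hbE.2
        rw [hx' x' hx1] at hx2
        exact hx2 h6
      · by_contra hcon
        refine hbE.2 (mem_S.2 (ZFSet.mem_sep.2 ⟨toZFSet_mem_toZFSet_iff.2 hb,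
          fun a x hp => ?_⟩))
        by_contra hbx
        have hp' := ZFSet.pair_mem_prod.1 (hfn.1 hp)
        obtain ⟨a, ha', rfl⟩ := mem_toZFSet_iff.1 hp'.1
        exact hcon ⟨a, ha', hbE.1, x, hp, hbx⟩
  · -- normal
    intro f hf hfn
    refine mem_UC.2 ⟨fun z hz => (ZFSet.mem_sep.1 hz).1, ?_, fun h4 => ?_⟩
    · refine hsubN f (fun b f => ∀ a x, a ∈ b → ZFSet.pair a x ∈ f → b ∈ x) (hnv hf) ?_
      refine DZ.all (R := fun a v => ∀ x, a ∈ v 0 → ZFSet.pair a x ∈ v 1 → v 0 ∈ x) ?_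
      refine DZ.all (R := fun x v => v 0 ∈ v 1 → ZFSet.pair (v 0) x ∈ v 2 → v 1 ∈ x) ?_
      exact (DZ.mem 1 2).imp ((loc_pmem 1 0 3).dz.imp (DZ.mem 2 0))
    · classical
      let h : Ordinal.{u} → Ordinal.{u} := fun b =>
        if hb : ∃ a < b, ∃ x, ZFSet.pair a.toZFSet x ∈ f ∧ b.toZFSet ∉ x
        then Classical.choose hb else 0
      have hspec : ∀ b : Ordinal.{u}, (∃ a < b, ∃ x, ZFSet.pair a.toZFSet x ∈ f ∧
          b.toZFSet ∉ x) → h b < b ∧ ∃ x, ZFSet.pair (h b).toZFSet x ∈ f ∧ b.toZFSet ∉ x := by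
        intro b hb
        have : h b = Classical.choose hb := dif_pos hb
        rw [this]
        exact Classical.choose_spec hb
      have hpos2 : Pos μ K.ord {b | b ∈ T ∧ ∃ a < b, ∃ x,
          ZFSet.pair a.toZFSet x ∈ f ∧ b.toZFSet ∉ x} := by
        refine h4.mono fun b hb hbE _ => ⟨hbE.1, ?_⟩
        by_contra hcon
        refine hbE.2 (mem_S.2 (ZFSet.mem_sep.2 ⟨toZFSet_mem_toZFSet_iff.2 hb,
          fun a x hab hp => ?_⟩))
        by_contra hbx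
        obtain ⟨a, ha', rfl⟩ := mem_toZFSet_iff.1 hab
        exact hcon ⟨a, ha', x, hp, hbx⟩
      obtain ⟨a, ha, hp⟩ := _root_.HD.All.vd μ K hK hK0 _ h hpos2
        (fun b hb _ _ => (hspec b hb.2).1)
      obtain ⟨x, hx, hx'⟩ := hfn.2 a.toZFSet (toZFSet_mem_toZFSet_iff.2 ha)
      have hxU : x ∈ UC A μ K.ord T := (ZFSet.pair_mem_prod.1 (hfn.1 hx)).2
      rw [mem_UC] at hxU
      refine hxU.2.2 (hp.mono ?_)
      rintro b _ ⟨⟨hb1, hb2⟩, rfl⟩ _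
      refine ⟨hb1, fun h6 => ?_⟩
      obtain ⟨x', hx1, hx2⟩ := (hspec b hb2).2
      rw [hx' x' hx1] at hx2
      exact hx2 h6

end Pool.Agent.H50.SD
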