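import Pool.Agent.H98.SD.Targets
import Pool.Agent.H45.NF.PA

/-!
# MP_e37c09_lc, SD, module ODY: definable predicates give sets which are definable from `x`
-/

open Ordinal Cardinal Order Set
open scoped ZFSet

universe u

namespace Pool.Agent.H50.SD

open _root_.HD _root_.HD.SD

/-- ordinals may be used as parameters for all variables of a set of indices -/
theorem dz_fill {Q : (ℕ → ZFSet.{u}) → Prop} (hQ : DZ Q) (S : ℕ → Prop) [DecidablePred S]
    (σ : ℕ → ℕ) (w : ℕ → Ordinal.{u}) :
    DZ fun v => Q (fun n => if S n then v (σ n) else (w n).toZFSet) := by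
  obtain ⟨φ, p, hφ⟩ := hQ
  refine ⟨φ.ren (fun n => if n % 2 = 0 then (if S (n / 2) then 2 * σ (n / 2)
    else 2 * (2 * (n / 2) + 1) + 1) else 2 * (2 * (n / 2)) + 1),
    fun n => if n % 2 = 0 then p (n / 2) else w (n / 2), fun v => ?_⟩
  show Q (fun n => if S n then v (σ n) else (w n).toZFSet) ↔ _
  rw [sat_ren, hφ]
  have h1 : ∀ k, mz v (fun n => if n % 2 = 0 then p (n / 2) else w (n / 2))
      (2 * (2 * k + 1) + 1) = (w k).toZFSet := by
    intro k
    rw [mz_odd, if_neg (by omega)]
    have : (2 * k + 1) / 2 = k := by omega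
    rw [this]
  have h2 : ∀ k, mz v (fun n => if n % 2 = 0 then p (n / 2) else w (n / 2))
      (2 * (2 * k) + 1) = (p k).toZFSet := by
    intro k
    rw [mz_odd, if_pos (by omega)]
    have : (2 * k) / 2 = k := by omega
    rw [this]
  have : mz v (fun n => if n % 2 = 0 then p (n / 2) else w (n / 2)) ∘
      (fun n => if n % 2 = 0 then (if S (n / 2) then 2 * σ (n / 2)
        else 2 * (2 * (n / 2) + 1) + 1) else 2 * (2 * (n / 2)) + 1) =
      mz (fun n => if S n then v (σ n) else (w n).toZFSet) p := by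
    funext n
    rw [Function.comp_apply]
    rcases Nat.even_or_odd' n with ⟨k, rfl | rfl⟩
    · have h3 : 2 * k / 2 = k := by omega
      rw [if_pos (by omega), h3, mz_even]
      split
      · rw [mz_even]
      · rw [h1]
    · have h3 : (2 * k + 1) / 2 = k := by omega
      rw [if_neg (by omega), h3, h2, mz_odd]
  rw [this]

/-- a definable predicate of a set and of ordinals, for given values of the ordinals, as a
definable predicate of two sets -/
theorem dx_two {P : ZFSet.{u} → (ℕ → Ordinal.{u}) → Prop} (hP : DX P) (w : ℕ → Ordinal.{u}) :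
    ∃ R : ZFSet.{u} → ZFSet.{u} → Prop, (DZ fun v => R (v 0) (v 1)) ∧
      ∀ (x : ZFSet.{u}) (b : Ordinal.{u}), P x (cns b w) ↔ R x b.toZFSet := by
  obtain ⟨Q, hQ, h⟩ := hP
  refine ⟨fun x z => Q (cons x (cons z (ov w))), ?_, fun x b => ?_⟩
  · refine (dz_fill hQ (fun n => n < 2) (fun n => n) (fun n => w (n - 2))).congr fun v => ?_
    have : (fun n => if n < 2 then v n else (w (n - 2)).toZFSet) =
        cons (v 0) (cons (v 1) (ov w)) := by
      funext n
      rcases n with _ | _ | n
      · rfl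
      · rfl
      · rw [if_neg (by omega)]
        rfl
    rw [this]
  · rw [h, ov_cns]

/-- ODY. Definable predicates give sets which are definable from `x` and ordinals. -/
theorem pf_ODY : T_ODY.{u} := by
  intro P hP x κ w
  obtain ⟨R, hR, h⟩ := dx_two hP w
  refine Pool.Agent.H45.NF.ODp.of_dz
    (Q := fun v => ∀ z, z ∈ v 0 ↔ z ∈ κ.toZFSet ∧ R (v 1) z) ?_ fun y => ?_
  · refine DZ.all (R := fun z v => z ∈ v 0 ↔ z ∈ κ.toZFSet ∧ R (v 1) z) ?_
    refine (DZ.mem 0 1).iff (DZ.and ?_ ?_)
    · exact DZ.od (R := fun k v => v 0 ∈ k) (OD.ordinal κ) (DZ.mem 1 0)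
    · exact hR.ren fun n => if n = 0 then 2 else 0
  · have key : ∀ z, z ∈ os κ {b | P x (cns b w)} ↔ z ∈ κ.toZFSet ∧ R x z := by
      intro z
      rw [mem_os]
      constructor
      · rintro ⟨a, ha, haP, rfl⟩
        exact ⟨toZFSet_mem_toZFSet_iff.2 ha, (h x a).1 haP⟩
      · rintro ⟨hz, hz2⟩
        obtain ⟨a, ha, rfl⟩ := mem_toZFSet_iff.1 hz
        exact ⟨a, ha, (h x a).2 hz2, rfl⟩
    show (∀ z, z ∈ y ↔ z ∈ κ.toZFSet ∧ R x z) ↔ y = os κ {b | P x (cns b w)}
    constructor
    · intro hy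
      ext z
      rw [hy z, key z]
    · rintro rfl z
      exact key z

end Pool.Agent.H50.SD
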